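import Pool.Agent.X129.OrthRing2

/-!
# MP_020e9d_co: the number of triangular faces, `t(n) ≥ 32 n / 9 - O(√n)`

* General step (`Pool.Agent.X129.OrthCirc.general`): putting a small circle round each crossing
  point of an arrangement of `m` orthogonal circles with `E` orthogonal pairs gives an arrangement
  of `m + 2 E` orthogonal circles with at least `8 E` triangular faces.
* Applied to two orthogonal lines and concentric circles this gives `16 k + 4` triangular faces
  with `n ≥ 5 k + 3` circles (written out directly in `OrthFaces`).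
* Applied to the ring lattice (`OrthRing`, `OrthRing2`): `K + 1` rings of `M + 1` circles, each
  circle orthogonal to its two neighbours in the ring and to two circles in each adjacent ring,
  and one concentric circle orthogonal to all circles of the ring, it gives `32 K M` triangular
  faces with `n ≥ (K + 1)(M + 2) + 8 K M` circles.
-/

namespace Pool.Agent.Results.MP_020e9d_co.MoreTriangles

open Pool.Agent.X129.OrthCirc

/-- `t n`: the supremum, over all arrangements of `n` orthogonal circles, of the number of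
triangular faces. -/
noncomputable def t (n : ℕ) : ℕ∞ :=
  ⨆ A : {A : Fin n → Circ // IsArrangement A}, {F | IsFace A.1 F ∧ IsTriangular A.1 F}.encard

theorem le_t_of {n : ℕ} {N : ℕ} (h : ∃ A : Fin n → Circ, IsArrangement A ∧
    ((N : ℕ) : ℕ∞) ≤ {F | IsFace A F ∧ IsTriangular A F}.encard) : (N : ℕ∞) ≤ t n := by
  obtain ⟨A, hA, h⟩ := h
  exact h.trans (le_iSup (fun A : {A : Fin n → Circ // IsArrangement A} =>
    {F | IsFace A.1 F ∧ IsTriangular A.1 F}.encard) ⟨A, hA⟩)

theorem le_t (k n : ℕ) (hn : 5 * k + 3 ≤ n) : ((16 * k + 4 : ℕ) : ℕ∞) ≤ t n :=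
  le_t_of (exists_arr k n hn)

theorem le_t' (M n : ℕ) (hM : 4 ≤ M) (hn : (M + 1) * (M + 2) + 8 * (M * M) ≤ n) :
    ((32 * (M * M) : ℕ) : ℕ∞) ≤ t n :=
  le_t_of (exists_ring M M n hM hn)

theorem close {n N q : ℕ} (h : (N : ℕ∞) ≤ t n) (h' : 32 * n ≤ 9 * N + q) :
    ((32 * n : ℕ) : ℕ∞) ≤ 9 * t n + (q : ℕ) := by
  calc ((32 * n : ℕ) : ℕ∞) ≤ ((9 * N + q : ℕ) : ℕ∞) := by exact_mod_cast h'
    _ = 9 * (N : ℕ∞) + (q : ℕ) := by push_cast; rfl
    _ ≤ 9 * t n + (q : ℕ) := by gcongr

/-- `t(n) ≥ (32 n - 256 √n) / 9` for all `n`, and `t(n) > 3 n - 3` for all `n = 5 k + 3` with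
`k ≥ 3` and for all `n ≥ 78`. -/
theorem result :
    (∀ n : ℕ, ((32 * n : ℕ) : ℕ∞) ≤ 9 * t n + (256 * Nat.sqrt n : ℕ)) ∧
    (∀ n : ℕ, ((∃ k, 3 ≤ k ∧ n = 5 * k + 3) ∨ 78 ≤ n) → ((3 * n - 3 : ℕ) : ℕ∞) < t n) := by
  refine ⟨?_, ?_⟩
  · intro n
    set s := Nat.sqrt n with hs
    have h1 : n ≤ s * s + s + s := Nat.sqrt_le_add n
    have h2 : s * s ≤ n := Nat.sqrt_le n
    rcases Nat.lt_or_ge s 13 with h | h
    · rcases Nat.lt_or_ge n 3 with hn | hn
      · have h3 : 32 * n ≤ 9 * 0 + 256 * s := by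
          rcases Nat.eq_zero_or_pos s with h0 | h0
          · rw [h0] at h1; omega
          · omega
        exact close (N := 0) (by simp) h3
      · refine close (le_t ((n - 3) / 5) n (by omega)) ?_
        interval_cases s <;> omega
    · obtain ⟨M, d, hd1, hd2, hsd⟩ : ∃ M d, 1 ≤ d ∧ d ≤ 3 ∧ s = 3 * M + d :=
        ⟨(s - 1) / 3, s - 3 * ((s - 1) / 3), by omega, by omega, by omega⟩
      have hM : 4 ≤ M := by omega
      refine close (le_t' M n hM ?_) ?_
      · rw [hsd] at h2
        interval_cases d <;> nlinarith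
      · rw [hsd] at h1 ⊢
        interval_cases d <;> nlinarith
  · rintro n (⟨k, hk, rfl⟩ | hn)
    · refine lt_of_lt_of_le ?_ (le_t k _ le_rfl)
      exact_mod_cast (by omega : 3 * (5 * k + 3) - 3 < 16 * k + 4)
    · refine lt_of_lt_of_le ?_ (le_t ((n - 3) / 5) n (by omega))
      exact_mod_cast (by omega : 3 * n - 3 < 16 * ((n - 3) / 5) + 4)

end Pool.Agent.Results.MP_020e9d_co.MoreTriangles
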