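import Pool.Agent.X129.OrthGen2

/-!
# MP_020e9d_co: orthogonal pairs give triangular faces

If an arrangement of `m` orthogonal circles has (at least) `E` orthogonal pairs, then
`t(m + 2 E) ≥ 8 E`: put a small circle round each of the `2 E` crossing points.
-/

namespace Pool.Agent.Results.MP_020e9d_co.PairsGiveTriangles

open Pool.Agent.X129.OrthCirc

/-- `t n`: the supremum, over all arrangements of `n` orthogonal circles, of the number of
triangular faces. -/
noncomputable def t (n : ℕ) : ℕ∞ :=
  ⨆ A : {A : Fin n → Circ // IsArrangement A}, {F | IsFace A.1 F ∧ IsTriangular A.1 F}.encard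

/-- An arrangement of `m` orthogonal circles with a set `P` of orthogonal pairs gives
`8 |P| ≤ t (m + 2 |P|)`. -/
theorem result : ∀ (m : ℕ) (A : Fin m → Circ), IsArrangement A →
    ∀ P : Finset (Fin m × Fin m), (∀ p ∈ P, p.1 < p.2 ∧ Orth (A p.1) (A p.2)) →
      ((8 * P.card : ℕ) : ℕ∞) ≤ t (m + 2 * P.card) := by
  intro m A hA P hP
  obtain ⟨B, hB, hcount⟩ := general (S := {p // p ∈ P}) A hA (fun s => s.1.1) (fun s => s.1.2)
    (fun s => (hP s.1 s.2).1.ne) (fun s => (hP s.1 s.2).2) (by
      rintro ⟨s, hs⟩ ⟨s', hs'⟩ (⟨h1, h2⟩ | ⟨h1, h2⟩)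
      · exact Subtype.ext (Prod.ext h1 h2)
      · exfalso
        have a1 := (hP s hs).1
        have a2 := (hP s' hs').1
        simp only at h1 h2
        rw [h1, h2] at a1
        exact lt_asymm a1 a2)
  have hc : Fintype.card (Fin (m + 2 * P.card)) = Fintype.card (Fin m ⊕ ({p // p ∈ P} × Bool)) := by
    simp only [Fintype.card_sum, Fintype.card_prod, Fintype.card_fin, Fintype.card_bool,
      Fintype.card_coe]
    ring
  rw [Fintype.card_coe] at hcount
  obtain ⟨h1, h2⟩ := transfer (Fintype.equivOfCardEq hc) B hB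
  exact (hcount.trans (Set.encard_le_encard h2)).trans
    (le_iSup (fun A : {A : Fin (m + 2 * P.card) → Circ // IsArrangement A} =>
      {F | IsFace A.1 F ∧ IsTriangular A.1 F}.encard) ⟨_, h1⟩)

end Pool.Agent.Results.MP_020e9d_co.PairsGiveTriangles
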